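import Pool.Agent.Lib.MP_1c03d5_ag.Main

/-!
A smooth proper algebraic space over an algebraically closed field of positive characteristic that
is not projective contains a rational curve.
-/

open CategoryTheory AlgebraicGeometry Pool.Agent.Lib.MP_1c03d5_ag

universe u

theorem Pool.Agent.Results.MP_1c03d5_ag.RationalCurve.result (p : ℕ) (hp : p.Prime) (k : Type u)
    [Field k] [IsAlgClosed k] [CharP k p] (X : Psh.{u}) (π : X ⟶ yoneda.obj (Spec (.of k)))
    (h1 : IsAlgSpace π) (h2 : IsSmoothSpace π) (h3 : IsProperSpace π)
    (h4 : ¬ IsProjectiveSpace π) : HasRationalCurve π :=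
  haveI := Fact.mk hp
  main p k X π h1 h2 h3 h4
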